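import Pool.Agent.Helper55.K4.Far

/-!
# K4: numerical rows
-/

set_option autoImplicit false

namespace K4

/-- the polynomial `y (y-1) (y-2) (y-3)` -/
def p4 (y : ℝ) : ℝ := y * (y - 1) * (y - 2) * (y - 3)

theorem choose4_p4 (n : ℕ) : (24 : ℝ) * ((n.choose 4 : ℕ) : ℝ) = p4 n := choose4_eq n

theorem floor_bounds {y : ℝ} (hy : 0 ≤ y) : y - 1 ≤ (⌊y⌋₊ : ℝ) ∧ (⌊y⌋₊ : ℝ) ≤ y :=
  ⟨by linarith [Nat.lt_floor_add_one y], Nat.floor_le hy⟩

/-- `p4` is monotone from 3 on -/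
theorem p4_mono {x y : ℝ} (hx : 3 ≤ x) (hxy : x ≤ y) : p4 x ≤ p4 y := by
  unfold p4
  have h1 : 0 ≤ x - 3 := by linarith
  have h2 : x * (x - 1) ≤ y * (y - 1) := by nlinarith
  have h3 : (x - 2) * (x - 3) ≤ (y - 2) * (y - 3) := by nlinarith
  have h4 : 0 ≤ x * (x - 1) := by nlinarith
  have h5 : 0 ≤ (x - 2) * (x - 3) := by nlinarith
  calc x * (x - 1) * (x - 2) * (x - 3) = (x * (x - 1)) * ((x - 2) * (x - 3)) := by ring
    _ ≤ (y * (y - 1)) * ((y - 2) * (y - 3)) := mul_le_mul h2 h3 h5 (h4.trans h2)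
    _ = y * (y - 1) * (y - 2) * (y - 3) := by ring

theorem low_unif {h : ℝ} (hh : 1000 ≤ h) :
    (4 * h) ^ 4 - 10 * (4 * h) ^ 3 ≤ 24 * ((⌊4 * h⌋₊.choose 4 : ℕ) : ℝ) := by
  rw [choose4_p4]
  obtain ⟨h1, _⟩ := floor_bounds (y := 4 * h) (by linarith)
  refine le_trans ?_ (p4_mono (x := 4 * h - 1) (by linarith) h1)
  unfold p4
  set y := 4 * h with hy
  have hy' : 4000 ≤ y := by linarith
  -- (y-1)(y-2)(y-3)(y-4) = y^4 - 10 y^3 + 35 y^2 - 50 y + 24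
  nlinarith [mul_nonneg (by linarith : (0:ℝ) ≤ y) (by linarith : (0:ℝ) ≤ y - 4000)]

theorem low_unit {h : ℝ} (hh : 1000 ≤ h) {n : ℕ} (hn : 4 * h ≤ n) :
    (n : ℝ) ^ 4 - (n - h) ^ 4 - 10 * (n : ℝ) ^ 3 + 24 * (((n - ⌊h⌋₊).choose 4 : ℕ) : ℝ) ≤
      24 * ((n.choose 4 : ℕ) : ℝ) := by
  rw [choose4_p4, choose4_p4]
  obtain ⟨h1, h2⟩ := floor_bounds (y := h) (by linarith)
  have hle : ⌊h⌋₊ ≤ n := by
    have : (⌊h⌋₊ : ℝ) ≤ n := by linarith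
    exact_mod_cast this
  have hc : ((n - ⌊h⌋₊ : ℕ) : ℝ) = n - (⌊h⌋₊ : ℝ) := by
    rw [Nat.cast_sub hle]
  rw [hc]
  set s : ℝ := (⌊h⌋₊ : ℝ) with hs
  set x : ℝ := (n : ℝ) with hx
  have hxx : 4000 ≤ x := by linarith
  have h3 : p4 (x - s) ≤ p4 (x - h + 1) := p4_mono (by linarith) (by linarith)
  -- p4 (z + 1) = (z + 1) z (z - 1) (z - 2) <= z ^ 4 with z = x - h
  have h4 : p4 (x - h + 1) ≤ (x - h) ^ 4 := by
    unfold p4
    have hz : 0 ≤ x - h := by linarith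
    set z := x - h with hzd
    have hz2 : 3000 ≤ z := by linarith
    nlinarith [mul_nonneg hz hz, mul_nonneg (mul_nonneg hz hz) (by linarith : (0:ℝ) ≤ z - 3000)]
  have h5 : x ^ 4 - 10 * x ^ 3 ≤ p4 x := by
    unfold p4
    nlinarith [mul_nonneg (mul_nonneg (by linarith : (0:ℝ) ≤ x) (by linarith : (0:ℝ) ≤ x)) (by linarith : (0:ℝ) ≤ x - 4000)]
  linarith

theorem num_P1 {h : ℝ} (hh : 1000 ≤ h) {n : ℕ} (hn0 : 4 * h ≤ n) (hn : (n : ℝ) ≤ 40 / 9 * h + 1) :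
    n.choose 4 ≤ ⌊4 * h⌋₊.choose 4 + (n - ⌊h⌋₊).choose 4 := by
  have h0 := low_unif hh
  obtain ⟨h1, h2⟩ := floor_bounds (y := h) (by linarith)
  have hle : ⌊h⌋₊ ≤ n := by
    have : (⌊h⌋₊ : ℝ) ≤ n := by linarith
    exact_mod_cast this
  have hc : ((n - ⌊h⌋₊ : ℕ) : ℝ) = n - (⌊h⌋₊ : ℝ) := by
    rw [Nat.cast_sub hle]
  have key : (n.choose 4 : ℝ) ≤ (⌊4 * h⌋₊.choose 4 : ℝ) + ((n - ⌊h⌋₊).choose 4 : ℝ) := by
    have e1 := choose4_p4 n
    have e2 := choose4_p4 (n - ⌊h⌋₊)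
    rw [hc] at e2
    set s : ℝ := (⌊h⌋₊ : ℝ) with hs
    set x : ℝ := (n : ℝ) with hx
    have h3 : p4 (x - h) ≤ p4 (x - s) := p4_mono (by linarith) (by linarith)
    -- p4 x - p4 (x - h) <= x^4 - (x-h)^4 <= value at 40/9 h + 1
    have h4 : p4 x - p4 (x - h) ≤ x ^ 4 - (x - h) ^ 4 := by
      unfold p4
      -- difference of y^4 - p4 y = 6 y^3 - 11 y^2 + 6 y at x and at x - h
      have hz : 3000 ≤ x - h := by linarith
      have a1 : 0 ≤ h := by linarith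
      nlinarith [mul_nonneg a1 (by nlinarith : (0:ℝ) ≤ 6 * (x ^ 2 + x * (x - h) + (x - h) ^ 2)
        - 11 * (x + (x - h)) + 6)]
    have h5 : x ^ 4 - (x - h) ^ 4 ≤ (40 / 9 * h + 1) ^ 4 - (31 / 9 * h + 1) ^ 4 := by
      set d := 40 / 9 * h + 1 - x with hd
      have hd0 : 0 ≤ d := by linarith
      have hxd : x = 40 / 9 * h + 1 - d := by linarith
      have a0 : 0 ≤ x - h := by linarith
      have a2 : x ^ 3 - (x - h) ^ 3 ≥ 0 := by
        have : (x - h) ^ 3 ≤ x ^ 3 := by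
          apply pow_le_pow_left₀ a0; linarith
        linarith
      -- convexity: A^4 - x^4 >= (A - x) * (A^3 + A^2 x + A x^2 + x^3)
      have b1 : (40 / 9 * h + 1) ^ 4 - x ^ 4
          = d * ((40 / 9 * h + 1) ^ 3 + (40 / 9 * h + 1) ^ 2 * x + (40 / 9 * h + 1) * x ^ 2 + x ^ 3) := by
        rw [hd]; ring
      have b2 : (31 / 9 * h + 1) ^ 4 - (x - h) ^ 4
          = d * ((31 / 9 * h + 1) ^ 3 + (31 / 9 * h + 1) ^ 2 * (x - h) + (31 / 9 * h + 1) * (x - h) ^ 2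
            + (x - h) ^ 3) := by
        rw [hd]; ring
      have c0 : 0 ≤ 31 / 9 * h + 1 := by linarith
      have c1 : 31 / 9 * h + 1 ≤ 40 / 9 * h + 1 := by linarith
      have c2 : x - h ≤ x := by linarith
      have d1 : (31 / 9 * h + 1) ^ 3 ≤ (40 / 9 * h + 1) ^ 3 := pow_le_pow_left₀ c0 c1 3
      have d2 : (31 / 9 * h + 1) ^ 2 * (x - h) ≤ (40 / 9 * h + 1) ^ 2 * x :=
        mul_le_mul (pow_le_pow_left₀ c0 c1 2) c2 a0 (by positivity)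
      have d3 : (31 / 9 * h + 1) * (x - h) ^ 2 ≤ (40 / 9 * h + 1) * x ^ 2 :=
        mul_le_mul c1 (pow_le_pow_left₀ a0 c2 2) (by positivity) (by linarith)
      have d4 : (x - h) ^ 3 ≤ x ^ 3 := pow_le_pow_left₀ a0 c2 3
      have e3 := mul_le_mul_of_nonneg_left (add_le_add (add_le_add (add_le_add d1 d2) d3) d4) hd0
      linarith
    have h6 : (40 / 9 * h + 1) ^ 4 - (31 / 9 * h + 1) ^ 4 ≤ (4 * h) ^ 4 - 10 * (4 * h) ^ 3 := by
      nlinarith [mul_nonneg (mul_nonneg (by linarith : (0:ℝ) ≤ h) (by linarith : (0:ℝ) ≤ h))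
        (mul_nonneg (by linarith : (0:ℝ) ≤ h) (by linarith : (0:ℝ) ≤ h - 1000)),
        mul_nonneg (mul_nonneg (by linarith : (0:ℝ) ≤ h) (by linarith : (0:ℝ) ≤ h)) (by linarith : (0:ℝ) ≤ h - 1000),
        mul_nonneg (by linarith : (0:ℝ) ≤ h) (by linarith : (0:ℝ) ≤ h - 1000)]
    linarith
  exact_mod_cast key

theorem num_P2 {h : ℝ} (hh : 1000 ≤ h) {n : ℕ} (hn : 9 / 2 * h - 1 ≤ n) (hn2 : (n : ℝ) ≤ 9 / 2 * h) :
    ⌊4 * h⌋₊.choose 4 + (n - ⌊h⌋₊).choose 4 ≤ n.choose 4 := by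
  have h0 := low_unit hh (n := n) (by linarith)
  obtain ⟨_, h2⟩ := floor_bounds (y := 4 * h) (by linarith)
  have key : (⌊4 * h⌋₊.choose 4 : ℝ) + ((n - ⌊h⌋₊).choose 4 : ℝ) ≤ (n.choose 4 : ℝ) := by
    have e1 := choose4_p4 ⌊4 * h⌋₊
    have h3 : p4 (⌊4 * h⌋₊ : ℝ) ≤ (4 * h) ^ 4 := by
      have h1 := (floor_bounds (y := 4 * h) (by linarith)).1
      refine (p4_mono (by linarith) h2).trans ?_
      unfold p4
      set y := 4 * h with hy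
      have hy' : 4000 ≤ y := by linarith
      nlinarith [mul_nonneg (mul_nonneg (by linarith : (0:ℝ) ≤ y) (by linarith : (0:ℝ) ≤ y)) (by linarith : (0:ℝ) ≤ y - 4000)]
    set x : ℝ := (n : ℝ) with hx
    -- x^4 - (x-h)^4 - 10 x^3 >= (4h)^4
    have h4 : (4 * h) ^ 4 ≤ x ^ 4 - (x - h) ^ 4 - 10 * x ^ 3 := by
      have b1 : x ^ 4 - (x - h) ^ 4 = h * (x ^ 3 + x ^ 2 * (x - h) + x * (x - h) ^ 2 + (x - h) ^ 3) := by
        ring
      have a1 : 9 / 2 * h - 1 ≤ x := hn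
      have a2 : 7 / 2 * h - 1 ≤ x - h := by linarith
      have c1 : 0 ≤ 9 / 2 * h - 1 := by linarith
      have c2 : 0 ≤ 7 / 2 * h - 1 := by linarith
      have d1 : (9 / 2 * h - 1) ^ 3 ≤ x ^ 3 := pow_le_pow_left₀ c1 a1 3
      have d2 : (9 / 2 * h - 1) ^ 2 * (7 / 2 * h - 1) ≤ x ^ 2 * (x - h) :=
        mul_le_mul (pow_le_pow_left₀ c1 a1 2) a2 c2 (by positivity)
      have d3 : (9 / 2 * h - 1) * (7 / 2 * h - 1) ^ 2 ≤ x * (x - h) ^ 2 :=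
        mul_le_mul a1 (pow_le_pow_left₀ c2 a2 2) (by positivity) (by linarith)
      have d4 : (7 / 2 * h - 1) ^ 3 ≤ (x - h) ^ 3 := pow_le_pow_left₀ c2 a2 3
      have d5 : x ^ 3 ≤ (9 / 2 * h) ^ 3 := pow_le_pow_left₀ (by linarith) hn2 3
      have e3 := mul_le_mul_of_nonneg_left (add_le_add (add_le_add (add_le_add d1 d2) d3) d4)
        (by linarith : (0:ℝ) ≤ h)
      rw [b1]
      have e4 : (4 * h) ^ 4 ≤ h * ((9 / 2 * h - 1) ^ 3 + (9 / 2 * h - 1) ^ 2 * (7 / 2 * h - 1) +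
          (9 / 2 * h - 1) * (7 / 2 * h - 1) ^ 2 + (7 / 2 * h - 1) ^ 3) - 10 * (9 / 2 * h) ^ 3 := by
        nlinarith [mul_nonneg (mul_nonneg (by linarith : (0:ℝ) ≤ h) (by linarith : (0:ℝ) ≤ h))
          (mul_nonneg (by linarith : (0:ℝ) ≤ h) (by linarith : (0:ℝ) ≤ h - 1000)),
          mul_nonneg (mul_nonneg (by linarith : (0:ℝ) ≤ h) (by linarith : (0:ℝ) ≤ h)) (by linarith : (0:ℝ) ≤ h - 1000),
          mul_nonneg (by linarith : (0:ℝ) ≤ h) (by linarith : (0:ℝ) ≤ h - 1000)]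
      linarith
    linarith
  exact_mod_cast key

/-- choice of the integer versions of the case bounds -/
theorem num_U {h : ℝ} (hh : 3000 ≤ h) {n M : ℕ} (hn : (n : ℝ) ≤ 9 / 2 * h)
    (hM : 4 * (985 / 1000) * (1 - 1 / 1000) * h ≤ M) :
    2 * (n - 1).choose 3 ≤ 3 * M.choose 3 := by
  have key : 2 * ((n - 1).choose 3 : ℝ) ≤ 3 * (M.choose 3 : ℝ) := by
    have e1 := choose3_eq M
    have e2 := choose3_eq (n - 1)
    have hMr : 393606 / 100000 * h ≤ (M : ℝ) := by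
      refine le_trans ?_ hM
      nlinarith
    have h1 : ((n - 1 : ℕ) : ℝ) ≤ 9 / 2 * h := by
      have : ((n - 1 : ℕ) : ℝ) ≤ (n : ℝ) := by exact_mod_cast Nat.sub_le n 1
      linarith
    have h2 : ((n - 1 : ℕ) : ℝ) * ((n - 1 : ℕ) - 1) * ((n - 1 : ℕ) - 2) ≤ (9 / 2 * h) ^ 3 := by
      set z : ℝ := ((n - 1 : ℕ) : ℝ) with hz
      have hz0 : 0 ≤ z := by positivity
      have h3 : z * (z - 1) * (z - 2) ≤ z ^ 3 := by
        by_cases hz1 : 1 ≤ z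
        · nlinarith [mul_nonneg hz0 hz0]
        · push Not at hz1
          have hzz : z = 0 := by
            have hz2 : ((n - 1 : ℕ) : ℝ) < ((1 : ℕ) : ℝ) := by rw [Nat.cast_one, ← hz]; exact hz1
            have : (n - 1) < 1 := Nat.cast_lt.1 hz2
            have h4 : n - 1 = 0 := by omega
            rw [hz, h4]; simp
          rw [hzz]; norm_num
      exact h3.trans (pow_le_pow_left₀ hz0 h1 3)
    set y : ℝ := (M : ℝ) with hy
    set a : ℝ := 393606 / 100000 * h with ha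
    have ha0 : 10000 ≤ a := by linarith
    have h5 : a * (a - 1) * (a - 2) ≤ y * (y - 1) * (y - 2) := by
      have q1 : a * (a - 1) ≤ y * (y - 1) := by nlinarith
      have q2 : 0 ≤ a * (a - 1) := by nlinarith
      exact mul_le_mul q1 (by linarith) (by linarith) (q2.trans q1)
    have h6 : 2 * (9 / 2 * h) ^ 3 ≤ 3 * (a * (a - 1) * (a - 2)) := by
      rw [ha]
      nlinarith [mul_nonneg (by linarith : (0:ℝ) ≤ h) (by linarith : (0:ℝ) ≤ h - 3000),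
        mul_nonneg (mul_nonneg (by linarith : (0:ℝ) ≤ h) (by linarith : (0:ℝ) ≤ h)) (by linarith : (0:ℝ) ≤ h - 3000)]
    linarith
  exact_mod_cast key

end K4
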