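import Pool.Agent.AV.Minimax

/-!
# K4: strong duality for fractional covers and matchings of a finite family of finite sets
-/

set_option autoImplicit false

open scoped BigOperators
open Finset

namespace K4

variable {ι : Type} [Fintype ι] [DecidableEq ι]

/-- `g` is a fractional cover of the family `L` -/
def Cover (L : Finset (Finset ι)) (g : ι → ℝ) : Prop :=
  (∀ i, 0 ≤ g i) ∧ ∀ S ∈ L, 1 ≤ ∑ i ∈ S, g i

/-- `w` is a fractional matching in the family `L` -/
def Matching (L : Finset (Finset ι)) (w : Finset ι → ℝ) : Prop :=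
  (∀ S, 0 ≤ w S) ∧ (∀ S, S ∉ L → w S = 0) ∧ ∀ i, ∑ S ∈ L with i ∈ S, w S ≤ 1

omit [DecidableEq ι] in
theorem cover_min (L : Finset (Finset ι)) (hL : ∀ S ∈ L, S.Nonempty) :
    ∃ g : ι → ℝ, Cover L g ∧ ∀ g', Cover L g' → ∑ i, g i ≤ ∑ i, g' i := by
  classical
  let C : Set (ι → ℝ) := {g | (∀ i, g i ∈ Set.Icc (0 : ℝ) 1) ∧ ∀ S ∈ L, 1 ≤ ∑ i ∈ S, g i}
  have hC1 : IsCompact C := by
    have h1 : IsCompact (Set.univ.pi fun _ : ι => Set.Icc (0 : ℝ) 1) :=
      isCompact_univ_pi fun _ => isCompact_Icc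
    have h2 : C = (Set.univ.pi fun _ : ι => Set.Icc (0 : ℝ) 1) ∩
        ⋂ S ∈ L, {g : ι → ℝ | 1 ≤ ∑ i ∈ S, g i} := by
      ext g
      simp only [C, Set.mem_ofPred_eq, Set.mem_inter_iff, Set.mem_pi, Set.mem_univ, true_implies,
        Set.mem_iInter]
    rw [h2]
    refine h1.inter_right ?_
    refine isClosed_biInter fun S _ => ?_
    exact isClosed_le continuous_const (continuous_finsetSum _ fun i _ => continuous_apply i)
  have hC2 : C.Nonempty := by
    refine ⟨fun _ => 1, fun _ => ⟨zero_le_one, le_refl _⟩, fun S hS => ?_⟩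
    have h1 : 1 ≤ S.card := Finset.card_pos.2 (hL S hS)
    rw [Finset.sum_const, nsmul_eq_mul, mul_one]
    exact_mod_cast h1
  obtain ⟨g, hg, hmin⟩ := hC1.exists_isMinOn hC2
    (f := fun g : ι → ℝ => ∑ i, g i) (continuous_finsetSum _ fun i _ => continuous_apply i).continuousOn
  refine ⟨g, ⟨fun i => (hg.1 i).1, hg.2⟩, fun g' hg' => ?_⟩
  have h1 : (fun i => min (g' i) 1) ∈ C := by
    refine ⟨fun i => ⟨le_min (hg'.1 i) zero_le_one, min_le_right _ _⟩, fun S hS => ?_⟩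
    by_cases h2 : ∃ j ∈ S, 1 ≤ g' j
    · obtain ⟨j, hj, hj1⟩ := h2
      have h3 : min (g' j) 1 ≤ ∑ i ∈ S, min (g' i) 1 :=
        Finset.single_le_sum (f := fun i => min (g' i) 1)
          (fun i _ => le_min (hg'.1 i) zero_le_one) hj
      rwa [min_eq_right hj1] at h3
    · push Not at h2
      have h3 : ∑ i ∈ S, min (g' i) 1 = ∑ i ∈ S, g' i :=
        Finset.sum_congr rfl fun i hi => min_eq_left (h2 i hi).le
      rw [h3]
      exact hg'.2 S hS
  have h2 := hmin h1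
  simp only [Set.mem_ofPred_eq] at h2
  exact h2.trans (Finset.sum_le_sum fun i _ => min_le_left _ _)

theorem weak_duality {L : Finset (Finset ι)} {g : ι → ℝ} {w : Finset ι → ℝ}
    (hg : Cover L g) (hw : Matching L w) : ∑ S ∈ L, w S ≤ ∑ i, g i := by
  classical
  calc ∑ S ∈ L, w S ≤ ∑ S ∈ L, w S * ∑ i ∈ S, g i := by
        refine Finset.sum_le_sum fun S hS => ?_
        have := mul_le_mul_of_nonneg_left (hg.2 S hS) (hw.1 S)
        linarith
    _ = ∑ i, g i * ∑ S ∈ L with i ∈ S, w S := by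
        have h1 : ∀ S ∈ L, w S * ∑ i ∈ S, g i = ∑ i, if i ∈ S then g i * w S else 0 := by
          intro S _
          rw [Finset.mul_sum, Finset.sum_ite_mem, Finset.univ_inter]
          exact Finset.sum_congr rfl fun i _ => mul_comm _ _
        rw [Finset.sum_congr rfl h1, Finset.sum_comm]
        refine Finset.sum_congr rfl fun i _ => ?_
        rw [Finset.mul_sum, Finset.sum_filter]
    _ ≤ ∑ i, g i := by
        refine Finset.sum_le_sum fun i _ => ?_
        have := mul_le_mul_of_nonneg_left (hw.2.2 i) (hg.1 i)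
        linarith

/-- strong duality with the same total -/
theorem strong_duality (L : Finset (Finset ι)) (hL : ∀ S ∈ L, S.Nonempty) :
    ∃ (g : ι → ℝ) (w : Finset ι → ℝ), Cover L g ∧ Matching L w ∧ ∑ i, g i = ∑ S ∈ L, w S := by
  classical
  obtain ⟨g, hg, hmin⟩ := cover_min L hL
  rcases L.eq_empty_or_nonempty with hL0 | hLn
  · refine ⟨fun _ => 0, fun _ => 0, ⟨fun _ => le_refl _, fun S hS => ?_⟩,
      ⟨fun _ => le_refl _, fun _ _ => rfl, fun i => ?_⟩, ?_⟩
    · rw [hL0] at hS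
      exact absurd hS (Finset.notMem_empty S)
    · simp
    · simp
  set τ : ℝ := ∑ i, g i with hτ
  have hτ1 : 1 ≤ τ := by
    obtain ⟨S, hS⟩ := hLn
    exact (hg.2 S hS).trans
      (Finset.sum_le_sum_of_subset_of_nonneg (Finset.subset_univ S) fun i _ _ => hg.1 i)
  have hτ0 : 0 < τ := by linarith
  -- the game
  have : Nonempty L := hLn.to_subtype
  let K : Set (ι → ℝ) := stdSimplex ℝ ι
  have hK : Convex ℝ K := convex_stdSimplex ℝ ι
  let f : L → ((ι → ℝ) →ᵃ[ℝ] ℝ) := fun S =>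
    (-(∑ i ∈ (S : Finset ι), (LinearMap.proj i : (ι → ℝ) →ₗ[ℝ] ℝ))).toAffineMap
  have hf : ∀ (S : L) (p : ι → ℝ), f S p = -∑ i ∈ (S : Finset ι), p i := by
    intro S p
    simp [f, LinearMap.sum_apply]
  have hgame : ∀ p ∈ K, ∃ S : L, ∑ i ∈ (S : Finset ι), p i ≤ 1 / τ := by
    intro p hp
    by_contra hcon
    push Not at hcon
    -- the minimum over S of p(S)
    obtain ⟨S₀, hS₀, hS₀min⟩ := Finset.exists_min_image L (fun S => ∑ i ∈ S, p i) hLn
    set v : ℝ := ∑ i ∈ S₀, p i with hv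
    have hv1 : 1 / τ < v := hcon ⟨S₀, hS₀⟩
    have hv0 : 0 < v := lt_trans (by positivity) hv1
    have hc : Cover L (fun i => p i / v) := by
      refine ⟨fun i => div_nonneg (hp.1 i) hv0.le, fun S hS => ?_⟩
      rw [← Finset.sum_div, le_div_iff₀ hv0, one_mul]
      exact hS₀min S hS
    have h1 := hmin _ hc
    rw [← Finset.sum_div, hp.2] at h1
    have h2 : 1 / v < τ := by
      rw [div_lt_iff₀ hv0]
      rw [div_lt_iff₀ hτ0] at hv1
      linarith
    linarith
  have hε : ∀ m : ℕ, ∃ a : L → ℝ, (∀ S, 0 ≤ a S) ∧ ∑ S, a S = 1 ∧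
      ∀ i, ∑ S : L, (if i ∈ (S : Finset ι) then a S else 0) ≤ 1 / τ + 1 / ((m : ℝ) + 1) := by
    intro m
    have hm : (0 : ℝ) < 1 / ((m : ℝ) + 1) := by positivity
    obtain ⟨a, ha0, ha1, ha2⟩ := AV.minimax K hK f (-(1 / τ + 1 / ((m : ℝ) + 1))) (fun p hp => by
      obtain ⟨S, hS⟩ := hgame p hp
      refine ⟨S, ?_⟩
      rw [hf]
      linarith)
    refine ⟨a, ha0, ha1, fun i => ?_⟩
    have h1 := ha2 (Pi.single i 1) (by
      refine ⟨fun j => ?_, ?_⟩
      · rw [Pi.single_apply]; split_ifs <;> norm_num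
      · simp [Pi.single_apply])
    have h2 : ∀ S : L, a S * f S (Pi.single i 1) = -(if i ∈ (S : Finset ι) then a S else 0) := by
      intro S
      rw [hf]
      have h3 : ∑ j ∈ (S : Finset ι), (Pi.single i (1 : ℝ) : ι → ℝ) j
          = if i ∈ (S : Finset ι) then 1 else 0 := by
        simp [Pi.single_apply]
      rw [h3]
      split_ifs <;> simp
    rw [Finset.sum_congr rfl fun S _ => h2 S, Finset.sum_neg_distrib] at h1
    linarith
  choose a ha0 ha1 ha2 using hε
  have hcpt : IsCompact (stdSimplex ℝ L) := isCompact_stdSimplex ℝ L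
  obtain ⟨b, hb, φ, hφ, hlim⟩ := hcpt.tendsto_subseq (x := a) (fun m => ⟨ha0 m, ha1 m⟩)
  have hb2 : ∀ i, ∑ S : L, (if i ∈ (S : Finset ι) then b S else 0) ≤ 1 / τ := by
    intro i
    have h1 : Filter.Tendsto (fun m => ∑ S : L, (if i ∈ (S : Finset ι) then a (φ m) S else 0))
        Filter.atTop (nhds (∑ S : L, (if i ∈ (S : Finset ι) then b S else 0))) := by
      refine tendsto_finsetSum _ fun S _ => ?_
      by_cases hS : i ∈ (S : Finset ι)
      · simp only [hS, if_true]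
        exact (continuous_apply S).continuousAt.tendsto.comp hlim
      · simp only [hS, if_false]
        exact tendsto_const_nhds
    have h2 : Filter.Tendsto (fun m : ℕ => 1 / τ + 1 / (((φ m : ℕ) : ℝ) + 1))
        Filter.atTop (nhds (1 / τ + 0)) := by
      refine tendsto_const_nhds.add ?_
      exact tendsto_one_div_add_atTop_nhds_zero_nat.comp hφ.tendsto_atTop
    rw [add_zero] at h2
    exact le_of_tendsto_of_tendsto' h1 h2 fun m => ha2 (φ m) i
  let w : Finset ι → ℝ := fun S => if h : S ∈ L then τ * b ⟨S, h⟩ else 0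
  have hwsum : ∀ F : Finset ι → Prop, ∀ [DecidablePred F],
      ∑ S ∈ L with F S, w S = τ * ∑ S : L, (if F (S : Finset ι) then b S else 0) := by
    intro F _
    rw [Finset.sum_filter, ← Finset.sum_attach, Finset.mul_sum]
    refine Finset.sum_congr rfl fun S _ => ?_
    by_cases hF : F (S : Finset ι)
    · simp only [hF, if_true, w, S.2, dif_pos]
    · simp only [hF, if_false, mul_zero]
  refine ⟨g, w, hg, ⟨fun S => ?_, fun S hS => ?_, fun i => ?_⟩, ?_⟩
  · by_cases h : S ∈ L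
    · simp only [w, h, dif_pos]
      exact mul_nonneg hτ0.le (hb.1 _)
    · simp only [w, h, dif_neg, not_false_iff]
      exact le_refl _
  · simp only [w, hS, dif_neg, not_false_iff]
  · rw [hwsum (fun S => i ∈ S)]
    calc τ * _ ≤ τ * (1 / τ) := mul_le_mul_of_nonneg_left (hb2 i) hτ0.le
      _ = 1 := by field_simp
  · have h1 := hwsum (fun _ => True)
    simp only [Finset.filter_true, if_true] at h1
    rw [h1, hb.2, mul_one]

/-- complementary slackness, sets -/
theorem slack_set {L : Finset (Finset ι)} {g : ι → ℝ} {w : Finset ι → ℝ}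
    (hg : Cover L g) (hw : Matching L w) (h : ∑ i, g i = ∑ S ∈ L, w S) :
    (∀ S ∈ L, 0 < w S → ∑ i ∈ S, g i = 1) ∧
      (∀ i, 0 < g i → ∑ S ∈ L with i ∈ S, w S = 1) := by
  classical
  have hswap : ∑ S ∈ L, w S * ∑ i ∈ S, g i = ∑ i, g i * ∑ S ∈ L with i ∈ S, w S := by
    have h1 : ∀ S ∈ L, w S * ∑ i ∈ S, g i = ∑ i, if i ∈ S then g i * w S else 0 := by
      intro S _
      rw [Finset.mul_sum, Finset.sum_ite_mem, Finset.univ_inter]
      exact Finset.sum_congr rfl fun i _ => mul_comm _ _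
    rw [Finset.sum_congr rfl h1, Finset.sum_comm]
    refine Finset.sum_congr rfl fun i _ => ?_
    rw [Finset.mul_sum, Finset.sum_filter]
  have h1 : ∀ S ∈ L, 0 ≤ w S * (∑ i ∈ S, g i) - w S := by
    intro S hS
    have := mul_le_mul_of_nonneg_left (hg.2 S hS) (hw.1 S)
    linarith
  have h2 : ∀ i ∈ (Finset.univ : Finset ι), 0 ≤ g i - g i * ∑ S ∈ L with i ∈ S, w S := by
    intro i _
    have := mul_le_mul_of_nonneg_left (hw.2.2 i) (hg.1 i)
    linarith
  have h3 : ∑ S ∈ L, (w S * (∑ i ∈ S, g i) - w S)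
      + ∑ i, (g i - g i * ∑ S ∈ L with i ∈ S, w S) = 0 := by
    rw [Finset.sum_sub_distrib, Finset.sum_sub_distrib, hswap, h]
    ring
  have h4 := Finset.sum_nonneg h1
  have h5 := Finset.sum_nonneg h2
  have h6 : ∑ S ∈ L, (w S * (∑ i ∈ S, g i) - w S) = 0 := by linarith
  have h7 : ∑ i, (g i - g i * ∑ S ∈ L with i ∈ S, w S) = 0 := by linarith
  constructor
  · intro S hS hwS
    have h8 := (Finset.sum_eq_zero_iff_of_nonneg h1).1 h6 S hS
    have h9 : w S * ((∑ i ∈ S, g i) - 1) = 0 := by linarith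
    rcases mul_eq_zero.1 h9 with h10 | h10
    · exact absurd h10 hwS.ne'
    · linarith
  · intro i hgi
    have h8 := (Finset.sum_eq_zero_iff_of_nonneg h2).1 h7 i (Finset.mem_univ i)
    have h9 : g i * (1 - ∑ S ∈ L with i ∈ S, w S) = 0 := by linarith
    rcases mul_eq_zero.1 h9 with h10 | h10
    · exact absurd h10 hgi.ne'
    · linarith

/-- everything together: an optimal fractional cover `g` and an optimal fractional matching `w` with
complementary slackness -/
theorem duality (L : Finset (Finset ι)) (hL : ∀ S ∈ L, S.Nonempty) :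
    ∃ (g : ι → ℝ) (w : Finset ι → ℝ),
      (∀ i, 0 ≤ g i) ∧ (∀ S ∈ L, 1 ≤ ∑ i ∈ S, g i) ∧
      (∀ S, 0 ≤ w S) ∧ (∀ S, w S ≠ 0 → S ∈ L ∧ ∑ i ∈ S, g i = 1) ∧
      (∀ i, ∑ S ∈ L with i ∈ S, w S ≤ 1) ∧
      (∀ i, g i ≠ 0 → ∑ S ∈ L with i ∈ S, w S = 1) ∧
      ∑ i, g i = ∑ S ∈ L, w S ∧
      ∀ g' : ι → ℝ, (∀ i, 0 ≤ g' i) → (∀ S ∈ L, 1 ≤ ∑ i ∈ S, g' i) → ∑ i, g i ≤ ∑ i, g' i := by
  obtain ⟨g, w, hg, hw, h⟩ := strong_duality L hL
  obtain ⟨h1, h2⟩ := slack_set hg hw h
  refine ⟨g, w, hg.1, hg.2, hw.1, fun S hS => ?_, hw.2.2, fun i hi => ?_, h, fun g' h3 h4 => ?_⟩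
  · have h3 : S ∈ L := by
      by_contra hcon
      exact hS (hw.2.1 S hcon)
    exact ⟨h3, h1 S h3 (lt_of_le_of_ne (hw.1 S) (Ne.symm hS))⟩
  · exact h2 i (lt_of_le_of_ne (hg.1 i) (Ne.symm hi))
  · rw [h]
    exact weak_duality ⟨h3, h4⟩ hw

end K4
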