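import Mathlib

/-!
# K4: families of four element sets without many pairwise disjoint members, far range
-/

set_option autoImplicit false

open scoped BigOperators
open Finset

namespace K4

theorem choose2_eq (n : ℕ) : (2 : ℝ) * (n.choose 2 : ℝ) = n * (n - 1) := by
  induction n with
  | zero => simp
  | succ n ih =>
    have h : (n + 1).choose 2 = n.choose 1 + n.choose 2 := Nat.choose_succ_succ n 1
    rw [h, Nat.choose_one_right]
    push_cast
    linarith

theorem choose3_eq (n : ℕ) : (6 : ℝ) * (n.choose 3 : ℝ) = n * (n - 1) * (n - 2) := by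
  induction n with
  | zero => simp
  | succ n ih =>
    have h : (n + 1).choose 3 = n.choose 2 + n.choose 3 := Nat.choose_succ_succ n 2
    rw [h]
    have h2 := choose2_eq n
    push_cast
    nlinarith [h2, ih]

theorem choose4_eq (n : ℕ) : (24 : ℝ) * (n.choose 4 : ℝ) = n * (n - 1) * (n - 2) * (n - 3) := by
  induction n with
  | zero => simp
  | succ n ih =>
    have h : (n + 1).choose 4 = n.choose 3 + n.choose 4 := Nat.choose_succ_succ n 3
    rw [h]
    have h2 := choose3_eq n
    push_cast
    nlinarith [h2, ih]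

/-- the numerical inequality of the low degree case -/
theorem far_num (n s : ℕ) (hs : 1 ≤ s) (h : 50 * s ≤ n) :
    4 * s * (4 * s * (n - 2).choose 2) + (n - s).choose 4 ≤ n.choose 4 := by
  obtain ⟨t, rfl⟩ : ∃ t, n = 50 * s + t := ⟨n - 50 * s, by omega⟩
  have h1 := choose4_eq (50 * s + t)
  have h2 := choose4_eq (50 * s + t - s)
  have h3 := choose2_eq (50 * s + t - 2)
  have e1 : ((50 * s + t - s : ℕ) : ℝ) = 49 * s + t := by
    have : 50 * s + t - s = 49 * s + t := by omega
    rw [this]; push_cast; ring
  have e2 : ((50 * s + t - 2 : ℕ) : ℝ) = 50 * s + t - 2 := by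
    rw [Nat.cast_sub (by omega)]; push_cast; ring
  rw [e1] at h2
  rw [e2] at h3
  push_cast at h1
  have hs' : (1 : ℝ) ≤ s := by exact_mod_cast hs
  have ht' : (0 : ℝ) ≤ t := by positivity
  have key : (4 * s * (4 * s * ((50 * s + t - 2).choose 2 : ℝ)) + ((50 * s + t - s).choose 4 : ℝ))
      ≤ ((50 * s + t).choose 4 : ℝ) := by
    have h4 : 24 * (4 * s * (4 * s * ((50 * s + t - 2).choose 2 : ℝ)))
        = 192 * s ^ 2 * ((50 * s + t - 2) * (50 * s + t - 2 - 1)) := by
      rw [← h3]; ring
    have h5 : (0 : ℝ) ≤ 5199 * s ^ 3 + 10204 * s ^ 2 * t + 402 * s * t ^ 2 + 4 * t ^ 3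
        + 3894 * s ^ 2 - 822 * s * t - 18 * t ^ 2 - 63 * s + 22 * t - 6 := by
      have a1 : (0 : ℝ) ≤ s * t * (s - 1) := by
        have : (0 : ℝ) ≤ s - 1 := by linarith
        positivity
      have a2 : (0 : ℝ) ≤ t ^ 2 * (s - 1) := by
        have : (0 : ℝ) ≤ s - 1 := by linarith
        positivity
      have a3 : (0 : ℝ) ≤ t ^ 3 := by positivity
      have a4 : (1 : ℝ) ≤ s ^ 2 := by nlinarith
      have a5 : (s : ℝ) ≤ s ^ 3 := by nlinarith [mul_nonneg (by linarith : (0:ℝ) ≤ s) (by linarith : (0:ℝ) ≤ s ^ 2 - 1)]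
      have a6 : (0 : ℝ) ≤ s ^ 2 * t := by positivity
      have a7 : (0 : ℝ) ≤ s * t ^ 2 := by positivity
      nlinarith
    have h6 : 0 ≤ s * (5199 * (s : ℝ) ^ 3 + 10204 * s ^ 2 * t + 402 * s * t ^ 2 + 4 * t ^ 3
        + 3894 * s ^ 2 - 822 * s * t - 18 * t ^ 2 - 63 * s + 22 * t - 6) :=
      mul_nonneg (by linarith) h5
    nlinarith [h4, h1, h2, h6]
  exact_mod_cast key

section
variable {α : Type} [DecidableEq α]

theorem card_pair_le {A : Finset α} {F : Finset (Finset α)} (hF : ∀ S ∈ F, S ⊆ A ∧ S.card = 4)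
    {u v : α} (huv : u ≠ v) (hu : u ∈ A) (hv : v ∈ A) :
    (F.filter fun S => v ∈ S ∧ u ∈ S).card ≤ (A.card - 2).choose 2 := by
  have h1 : ((A.erase v).erase u).card = A.card - 2 := by
    rw [Finset.card_erase_of_mem (Finset.mem_erase.2 ⟨huv, hu⟩), Finset.card_erase_of_mem hv]
    omega
  rw [← h1, ← Finset.card_powersetCard]
  refine Finset.card_le_card_of_injOn (fun S => (S.erase v).erase u) ?_ ?_
  · intro S hS
    have hS' := Finset.mem_filter.1 (Finset.mem_coe.1 hS)
    obtain ⟨hSF, hvS, huS⟩ := hS'
    refine Finset.mem_coe.2 (Finset.mem_powersetCard.2 ⟨?_, ?_⟩)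
    · exact Finset.erase_subset_erase _ (Finset.erase_subset_erase _ (hF S hSF).1)
    · rw [Finset.card_erase_of_mem (Finset.mem_erase.2 ⟨huv, huS⟩), Finset.card_erase_of_mem hvS,
        (hF S hSF).2]
  · intro S hS T hT hST
    have hS' := Finset.mem_filter.1 (Finset.mem_coe.1 hS)
    have hT' := Finset.mem_filter.1 (Finset.mem_coe.1 hT)
    have h2 : insert v (insert u ((S.erase v).erase u)) = S := by
      rw [Finset.insert_erase (Finset.mem_erase.2 ⟨huv, hS'.2.2⟩), Finset.insert_erase hS'.2.1]
    have h3 : insert v (insert u ((T.erase v).erase u)) = T := by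
      rw [Finset.insert_erase (Finset.mem_erase.2 ⟨huv, hT'.2.2⟩), Finset.insert_erase hT'.2.1]
    have h4 : (S.erase v).erase u = (T.erase v).erase u := hST
    rw [← h2, ← h3, h4]

theorem card_deg_le {A : Finset α} {F : Finset (Finset α)} (hF : ∀ S ∈ F, S ⊆ A ∧ S.card = 4)
    {v : α} (hv : v ∈ A) :
    (F.filter fun S => v ∈ S).card ≤ (A.card - 1).choose 3 := by
  have h1 : (A.erase v).card = A.card - 1 := Finset.card_erase_of_mem hv
  rw [← h1, ← Finset.card_powersetCard]
  refine Finset.card_le_card_of_injOn (fun S => S.erase v) ?_ ?_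
  · intro S hS
    obtain ⟨hSF, hvS⟩ := Finset.mem_filter.1 (Finset.mem_coe.1 hS)
    refine Finset.mem_coe.2 (Finset.mem_powersetCard.2 ⟨?_, ?_⟩)
    · exact Finset.erase_subset_erase _ (hF S hSF).1
    · rw [Finset.card_erase_of_mem hvS, (hF S hSF).2]
  · intro S hS T hT hST
    have hS' := Finset.mem_filter.1 (Finset.mem_coe.1 hS)
    have hT' := Finset.mem_filter.1 (Finset.mem_coe.1 hT)
    have h4 : S.erase v = T.erase v := hST
    rw [← Finset.insert_erase hS'.2, ← Finset.insert_erase hT'.2, h4]

theorem card_biUnion_four {F M : Finset (Finset α)} {A : Finset α}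
    (hF : ∀ S ∈ F, S ⊆ A ∧ S.card = 4) (hM : M ⊆ F) : (M.biUnion id).card ≤ 4 * M.card := by
  refine Finset.card_biUnion_le.trans ?_
  calc ∑ S ∈ M, (id S).card ≤ ∑ _S ∈ M, 4 := Finset.sum_le_sum fun S hS => ((hF S (hM hS)).2).le
    _ = 4 * M.card := by rw [Finset.sum_const, smul_eq_mul, mul_comm]

theorem insert_matching {M : Finset (Finset α)} (hM : ∀ S ∈ M, ∀ T ∈ M, S ≠ T → Disjoint S T)
    {S : Finset α} (hS : Disjoint S (M.biUnion id)) :
    ∀ P ∈ insert S M, ∀ Q ∈ insert S M, P ≠ Q → Disjoint P Q := by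
  have h1 : ∀ T ∈ M, Disjoint S T := by
    intro T hT
    exact hS.mono_right (Finset.subset_biUnion_of_mem id hT)
  intro P hP Q hQ hPQ
  rcases Finset.mem_insert.1 hP with rfl | hP'
  · rcases Finset.mem_insert.1 hQ with rfl | hQ'
    · exact absurd rfl hPQ
    · exact h1 Q hQ'
  · rcases Finset.mem_insert.1 hQ with rfl | hQ'
    · exact (h1 P hP').symm
    · exact hM P hP' Q hQ' hPQ

/-- the far range of the matching problem for four element sets -/
theorem far (s : ℕ) : ∀ (A : Finset α) (F : Finset (Finset α)),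
    (∀ S ∈ F, S ⊆ A ∧ S.card = 4) →
    (∀ M ⊆ F, (∀ S ∈ M, ∀ T ∈ M, S ≠ T → Disjoint S T) → M.card ≤ s) →
    50 * s ≤ A.card → F.card + (A.card - s).choose 4 ≤ A.card.choose 4 := by
  induction s with
  | zero =>
    intro A F hF hM _
    have h1 : F = ∅ := by
      by_contra hcon
      obtain ⟨S, hS⟩ := Finset.nonempty_iff_ne_empty.2 hcon
      have h2 := hM {S} (Finset.singleton_subset_iff.2 hS) (by
        intro P hP Q hQ hPQ
        rw [Finset.mem_singleton] at hP hQ
        exact absurd (hP.trans hQ.symm) hPQ)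
      rw [Finset.card_singleton] at h2
      omega
    rw [h1]
    simp
  | succ s ih =>
    intro A F hF hM hA
    by_cases hdeg : ∃ v ∈ A, 4 * (s + 1) * (A.card - 2).choose 2 < (F.filter fun S => v ∈ S).card
    · obtain ⟨v, hv, hdv⟩ := hdeg
      have hF' : ∀ S ∈ F.filter (fun S => v ∉ S), S ⊆ A.erase v ∧ S.card = 4 := by
        intro S hS
        obtain ⟨h1, h2⟩ := Finset.mem_filter.1 hS
        exact ⟨fun x hx => Finset.mem_erase.2 ⟨fun h => h2 (h ▸ hx), (hF S h1).1 hx⟩, (hF S h1).2⟩
      have hM' : ∀ M ⊆ F.filter (fun S => v ∉ S), (∀ S ∈ M, ∀ T ∈ M, S ≠ T → Disjoint S T) →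
          M.card ≤ s := by
        intro M hMF hMd
        have hMF' : M ⊆ F := hMF.trans (Finset.filter_subset _ _)
        have h1 := hM M hMF' hMd
        by_contra hcon
        push Not at hcon
        have h2 : M.card = s + 1 := by omega
        set U := M.biUnion id with hU
        have h3 : U.card ≤ 4 * (s + 1) := by
          rw [← h2]; exact card_biUnion_four hF hMF'
        have hvU : v ∉ U := by
          rw [hU, Finset.mem_biUnion]
          rintro ⟨S, hS, hvS⟩
          exact (Finset.mem_filter.1 (hMF hS)).2 hvS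
        have hUA : U ⊆ A := by
          intro x hx
          rw [hU, Finset.mem_biUnion] at hx
          obtain ⟨S, hS, hxS⟩ := hx
          exact (hF S (hMF' hS)).1 hxS
        -- a member through v which misses U
        have h4 : ∃ S ∈ F, v ∈ S ∧ Disjoint S U := by
          by_contra hno
          push Not at hno
          have h5 : (F.filter fun S => v ∈ S) ⊆ U.biUnion fun u => F.filter fun S => v ∈ S ∧ u ∈ S := by
            intro S hS
            obtain ⟨hSF, hvS⟩ := Finset.mem_filter.1 hS
            have h6 := hno S hSF hvS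
            rw [Finset.not_disjoint_iff] at h6
            obtain ⟨u, huS, huU⟩ := h6
            exact Finset.mem_biUnion.2 ⟨u, huU, Finset.mem_filter.2 ⟨hSF, hvS, huS⟩⟩
          have h6 := Finset.card_le_card h5
          have h7 : (U.biUnion fun u => F.filter fun S => v ∈ S ∧ u ∈ S).card
              ≤ ∑ _u ∈ U, (A.card - 2).choose 2 := by
            refine Finset.card_biUnion_le.trans (Finset.sum_le_sum fun u hu => ?_)
            exact card_pair_le hF (fun h => hvU (h ▸ hu)) (hUA hu) hv
          rw [Finset.sum_const, smul_eq_mul] at h7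
          have h8 : U.card * (A.card - 2).choose 2 ≤ 4 * (s + 1) * (A.card - 2).choose 2 :=
            Nat.mul_le_mul_right _ h3
          omega
        obtain ⟨S, hSF, hvS, hSU⟩ := h4
        have hSM : S ∉ M := by
          intro h
          exact (Finset.mem_filter.1 (hMF h)).2 hvS
        have h5 := hM (insert S M) (Finset.insert_subset hSF hMF') (insert_matching hMd hSU)
        rw [Finset.card_insert_of_notMem hSM] at h5
        omega
      have hcard : (A.erase v).card = A.card - 1 := Finset.card_erase_of_mem hv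
      have hih := ih (A.erase v) _ hF' hM' (by rw [hcard]; omega)
      rw [hcard] at hih
      have hd := card_deg_le hF hv
      have hsplit : F.card = (F.filter fun S => v ∈ S).card + (F.filter fun S => v ∉ S).card :=
        (Finset.card_filter_add_card_filter_not _).symm
      have hch : A.card.choose 4 = (A.card - 1).choose 3 + (A.card - 1).choose 4 := by
        have : A.card = (A.card - 1) + 1 := by omega
        conv_lhs => rw [this]
        exact Nat.choose_succ_succ _ 3
      have hsub : A.card - (s + 1) = A.card - 1 - s := by omega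
      rw [hsub, hch, hsplit]
      omega
    · push Not at hdeg
      -- maximal matching
      obtain ⟨M, hMmem, hMmax⟩ := Finset.exists_max_image
        (F.powerset.filter fun M => ∀ S ∈ M, ∀ T ∈ M, S ≠ T → Disjoint S T) Finset.card
        ⟨∅, by simp⟩
      rw [Finset.mem_filter, Finset.mem_powerset] at hMmem
      obtain ⟨hMF, hMd⟩ := hMmem
      have h1 := hM M hMF hMd
      set U := M.biUnion id with hU
      have h3 : U.card ≤ 4 * (s + 1) := (card_biUnion_four hF hMF).trans (by omega)
      have hUA : U ⊆ A := by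
        intro x hx
        rw [hU, Finset.mem_biUnion] at hx
        obtain ⟨S, hS, hxS⟩ := hx
        exact (hF S (hMF hS)).1 hxS
      have h4 : ∀ S ∈ F, ∃ u ∈ U, u ∈ S := by
        intro S hS
        by_contra hno
        push Not at hno
        have hSU : Disjoint S U := by
          rw [Finset.disjoint_left]
          intro x hxS hxU
          exact hno x hxU hxS
        have hSM : S ∉ M := by
          intro h
          have h5 : S.card = 4 := (hF S hS).2
          have h6 : S.Nonempty := Finset.card_pos.1 (by omega)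
          obtain ⟨x, hx⟩ := h6
          exact hno x (by rw [hU, Finset.mem_biUnion]; exact ⟨S, h, hx⟩) hx
        have h5 := hMmax (insert S M) (Finset.mem_filter.2 ⟨Finset.mem_powerset.2
          (Finset.insert_subset hS hMF), insert_matching hMd hSU⟩)
        rw [Finset.card_insert_of_notMem hSM] at h5
        omega
      have h5 : F ⊆ U.biUnion fun u => F.filter fun S => u ∈ S := by
        intro S hS
        obtain ⟨u, hu, huS⟩ := h4 S hS
        exact Finset.mem_biUnion.2 ⟨u, hu, Finset.mem_filter.2 ⟨hS, huS⟩⟩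
      have h6 := Finset.card_le_card h5
      have h7 : (U.biUnion fun u => F.filter fun S => u ∈ S).card
          ≤ ∑ _u ∈ U, 4 * (s + 1) * (A.card - 2).choose 2 :=
        Finset.card_biUnion_le.trans (Finset.sum_le_sum fun u hu => hdeg u (hUA hu))
      rw [Finset.sum_const, smul_eq_mul] at h7
      have h8 : U.card * (4 * (s + 1) * (A.card - 2).choose 2)
          ≤ 4 * (s + 1) * (4 * (s + 1) * (A.card - 2).choose 2) := Nat.mul_le_mul_right _ h3
      have h9 := far_num A.card (s + 1) (by omega) hA
      omega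

end

end K4
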