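import Pool.Agent.Helper55.K4.Dual

/-!
# K4: the law of the doses of an optimal cover is a mixture of compositions of 1
-/

set_option autoImplicit false

open scoped BigOperators
open Finset

namespace K4

/-- expectation of `F` under the law with mass `m` at each of the four doses `v j` and the rest of
the mass, `1 - 4 m`, at the dose zero -/
def E1 (m : ℝ) (v : Fin 4 → ℝ) (F : ℝ → ℝ) : ℝ := (1 - 4 * m) * F 0 + m * ∑ j, F (v j)

/-- probability that four independent doses, the `i`-th with the law of row `v i`, are lethal -/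
noncomputable def Phi (v : Fin 4 → Fin 4 → ℝ) (m : ℝ) : ℝ :=
  E1 m (v 0) fun a => E1 m (v 1) fun b => E1 m (v 2) fun c => E1 m (v 3) fun d =>
    if 1 ≤ a + b + c + d then 1 else 0

theorem E1_mono_F {m : ℝ} (hm : 0 ≤ m) (hm4 : 4 * m ≤ 1) (v : Fin 4 → ℝ) {F G : ℝ → ℝ}
    (h : ∀ x, F x ≤ G x) : E1 m v F ≤ E1 m v G := by
  unfold E1
  have h1 : ∑ j, F (v j) ≤ ∑ j, G (v j) := Finset.sum_le_sum fun j _ => h (v j)
  have h2 := mul_le_mul_of_nonneg_left h1 hm
  have h3 := mul_le_mul_of_nonneg_left (h 0) (by linarith : (0 : ℝ) ≤ 1 - 4 * m)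
  linarith

theorem E1_mono_m {m m' : ℝ} (hmm : m ≤ m') {v : Fin 4 → ℝ} {F : ℝ → ℝ}
    (h : ∀ j, F 0 ≤ F (v j)) : E1 m v F ≤ E1 m' v F := by
  unfold E1
  have h1 : 4 * F 0 ≤ ∑ j, F (v j) := by
    rw [Fin.sum_univ_four]
    linarith [h 0, h 1, h 2, h 3]
  nlinarith [mul_le_mul_of_nonneg_left h1 (by linarith : (0 : ℝ) ≤ m' - m)]

theorem Phi_mono {m m' : ℝ} (hm : 0 ≤ m) (hmm : m ≤ m') (hm' : 4 * m' ≤ 1)
    {v : Fin 4 → Fin 4 → ℝ} (hv : ∀ i j, 0 ≤ v i j) : Phi v m ≤ Phi v m' := by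
  have hm4 : 4 * m ≤ 1 := by linarith
  have hm0' : 0 ≤ m' := by linarith
  have ind : ∀ x y : ℝ, x ≤ y → (if (1 : ℝ) ≤ x then (1 : ℝ) else 0) ≤ if (1 : ℝ) ≤ y then 1 else 0 := by
    intro x y hxy
    by_cases h1 : 1 ≤ x
    · rw [if_pos h1, if_pos (h1.trans hxy)]
    · rw [if_neg h1]
      split_ifs <;> norm_num
  unfold Phi
  -- last coordinate
  have h3 : ∀ a b c : ℝ, E1 m (v 3) (fun d => if 1 ≤ a + b + c + d then 1 else 0)
      ≤ E1 m' (v 3) (fun d => if 1 ≤ a + b + c + d then 1 else 0) := by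
    intro a b c
    exact E1_mono_m hmm fun j => ind _ _ (by linarith [hv 3 j])
  have h2 : ∀ a b : ℝ, E1 m (v 2) (fun c => E1 m (v 3) (fun d => if 1 ≤ a + b + c + d then 1 else 0))
      ≤ E1 m' (v 2) (fun c => E1 m' (v 3) (fun d => if 1 ≤ a + b + c + d then 1 else 0)) := by
    intro a b
    refine (E1_mono_F hm hm4 (v 2) fun c => h3 a b c).trans ?_
    refine E1_mono_m hmm fun j => ?_
    exact E1_mono_F hm0' hm' (v 3) fun d => ind _ _ (by linarith [hv 2 j])
  have h1 : ∀ a : ℝ, E1 m (v 1) (fun b => E1 m (v 2) (fun c => E1 m (v 3)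
        (fun d => if 1 ≤ a + b + c + d then 1 else 0)))
      ≤ E1 m' (v 1) (fun b => E1 m' (v 2) (fun c => E1 m' (v 3)
        (fun d => if 1 ≤ a + b + c + d then 1 else 0))) := by
    intro a
    refine (E1_mono_F hm hm4 (v 1) fun b => h2 a b).trans ?_
    refine E1_mono_m hmm fun j => ?_
    exact E1_mono_F hm0' hm' (v 2) fun c => E1_mono_F hm0' hm' (v 3) fun d =>
      ind _ _ (by linarith [hv 1 j])
  refine (E1_mono_F hm hm4 (v 0) fun a => h1 a).trans ?_
  refine E1_mono_m hmm fun j => ?_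
  exact E1_mono_F hm0' hm' (v 1) fun b => E1_mono_F hm0' hm' (v 2) fun c =>
    E1_mono_F hm0' hm' (v 3) fun d => ind _ _ (by linarith [hv 0 j])

variable {ι : Type} [Fintype ι] [DecidableEq ι]

/-- the doses of the four elements of `S` -/
noncomputable def row (g : ι → ℝ) (S : Finset ι) : Fin 4 → ℝ :=
  if h : S.card = 4 then fun j => g ((S.equivFinOfCardEq h).symm j) else fun _ => 0

omit [Fintype ι] [DecidableEq ι] in
theorem sum_row (g : ι → ℝ) {S : Finset ι} (h : S.card = 4) (f : ℝ → ℝ) :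
    ∑ j, f (row g S j) = ∑ i ∈ S, f (g i) := by
  classical
  unfold row
  rw [dif_pos h]
  rw [← Finset.sum_coe_sort S (fun i => f (g i))]
  exact Equiv.sum_comp (S.equivFinOfCardEq h).symm (fun i : S => f (g i))

omit [Fintype ι] [DecidableEq ι] in
theorem row_nonneg {g : ι → ℝ} (hg : ∀ i, 0 ≤ g i) (S : Finset ι) (j : Fin 4) : 0 ≤ row g S j := by
  unfold row
  split_ifs
  · exact hg _
  · exact le_refl _

/-- one coordinate: the law of the doses is a mixture -/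
theorem mix_one (L : Finset (Finset ι)) (hL : ∀ S ∈ L, S.card = 4) {g : ι → ℝ}
    {w : Finset ι → ℝ} (h1 : ∀ i, g i ≠ 0 → ∑ S ∈ L with i ∈ S, w S = 1) (f : ℝ → ℝ) :
    ∑ i, f (g i) = ∑ S ∈ L, w S * ∑ j, f (row g S j)
      + ((Fintype.card ι : ℝ) - 4 * ∑ S ∈ L, w S) * f 0 := by
  classical
  have hswap : ∀ q : ι → ℝ, ∑ S ∈ L, w S * ∑ i ∈ S, q i = ∑ i, q i * ∑ S ∈ L with i ∈ S, w S := by
    intro q
    have h2 : ∀ S ∈ L, w S * ∑ i ∈ S, q i = ∑ i, if i ∈ S then q i * w S else 0 := by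
      intro S _
      rw [Finset.mul_sum, Finset.sum_ite_mem, Finset.univ_inter]
      exact Finset.sum_congr rfl fun i _ => mul_comm _ _
    rw [Finset.sum_congr rfl h2, Finset.sum_comm]
    refine Finset.sum_congr rfl fun i _ => ?_
    rw [Finset.mul_sum, Finset.sum_filter]
  have h2 : ∑ S ∈ L, w S * ∑ j, f (row g S j) = ∑ i, f (g i) * ∑ S ∈ L with i ∈ S, w S := by
    rw [← hswap]
    exact Finset.sum_congr rfl fun S hS => by rw [sum_row g (hL S hS)]
  have h3 : 4 * ∑ S ∈ L, w S = ∑ i, ∑ S ∈ L with i ∈ S, w S := by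
    have h4 := hswap (fun _ => 1)
    simp only [one_mul] at h4
    rw [← h4, Finset.mul_sum]
    refine Finset.sum_congr rfl fun S hS => ?_
    rw [Finset.sum_const, hL S hS]
    simp only [nsmul_eq_mul, mul_one]
    push_cast
    ring
  rw [h2, h3]
  have h5 : (Fintype.card ι : ℝ) = ∑ _i : ι, (1 : ℝ) := by simp
  rw [h5, ← Finset.sum_sub_distrib, Finset.sum_mul, ← Finset.sum_add_distrib]
  refine Finset.sum_congr rfl fun i _ => ?_
  by_cases hi : g i = 0
  · rw [hi]; ring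
  · rw [h1 i hi]; ring

/-- one coordinate, normalised: `m` = total / number of elements, `lam S` = share of `S` -/
theorem mix_one' (L : Finset (Finset ι)) (hL : ∀ S ∈ L, S.card = 4) {g : ι → ℝ}
    {w : Finset ι → ℝ} (h1 : ∀ i, g i ≠ 0 → ∑ S ∈ L with i ∈ S, w S = 1)
    (hτ : 0 < ∑ S ∈ L, w S) (hn : 0 < Fintype.card ι) (f : ℝ → ℝ) :
    ∑ i, f (g i) = (Fintype.card ι : ℝ) *
      ∑ S ∈ L, w S / (∑ T ∈ L, w T) * E1 ((∑ T ∈ L, w T) / (Fintype.card ι : ℝ)) (row g S) f := by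
  rw [mix_one L hL h1 f]
  set τ : ℝ := ∑ T ∈ L, w T with hτd
  have hn' : (0 : ℝ) < Fintype.card ι := by exact_mod_cast hn
  set N : ℝ := (Fintype.card ι : ℝ) with hN
  have h2 : ∀ S ∈ L, w S / τ * E1 (τ / N) (row g S) f
      = (w S / τ) * ((1 - 4 * (τ / N)) * f 0) + (1 / N) * (w S * ∑ j, f (row g S j)) := by
    intro S _
    unfold E1
    field_simp
  rw [Finset.sum_congr rfl h2, Finset.sum_add_distrib, ← Finset.sum_mul, ← Finset.sum_div,
    ← Finset.mul_sum, ← hτd, div_self hτ.ne', one_mul]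
  field_simp
  ring

/-- four coordinates -/
theorem mix_four (L : Finset (Finset ι)) (hL : ∀ S ∈ L, S.card = 4) {g : ι → ℝ}
    {w : Finset ι → ℝ} (h1 : ∀ i, g i ≠ 0 → ∑ S ∈ L with i ∈ S, w S = 1)
    (hτ : 0 < ∑ S ∈ L, w S) (hn : 0 < Fintype.card ι) :
    ∑ a : ι, ∑ b : ι, ∑ c : ι, ∑ d : ι, (if 1 ≤ g a + g b + g c + g d then (1 : ℝ) else 0)
      = (Fintype.card ι : ℝ) ^ 4 *
        ∑ A ∈ L, ∑ B ∈ L, ∑ C ∈ L, ∑ D ∈ L,
          w A / (∑ T ∈ L, w T) * (w B / (∑ T ∈ L, w T)) * (w C / (∑ T ∈ L, w T)) *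
            (w D / (∑ T ∈ L, w T)) *
            Phi ![row g A, row g B, row g C, row g D] ((∑ T ∈ L, w T) / (Fintype.card ι : ℝ)) := by
  have key := fun f => mix_one' L hL h1 hτ hn f
  set τ : ℝ := ∑ T ∈ L, w T with hτd
  set N : ℝ := (Fintype.card ι : ℝ) with hN
  -- linearity of E1
  have hlin : ∀ (m : ℝ) (v : Fin 4 → ℝ) (q : Finset ι → ℝ → ℝ) (r : ℝ),
      E1 m v (fun x => r * ∑ S ∈ L, w S / τ * q S x)
        = r * ∑ S ∈ L, w S / τ * E1 m v (q S) := by
    intro m v q r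
    unfold E1
    have h2 : ∀ S ∈ L, w S / τ * ((1 - 4 * m) * q S 0 + m * ∑ j, q S (v j))
        = (1 - 4 * m) * (w S / τ * q S 0) + m * ∑ j, w S / τ * q S (v j) := by
      intro S _
      rw [mul_add, ← Finset.mul_sum]
      ring
    rw [Finset.sum_congr rfl h2, Finset.sum_add_distrib, ← Finset.mul_sum, ← Finset.mul_sum,
      Finset.sum_comm, ← Finset.mul_sum]
    ring
  have e1 : ∀ a b c : ι, ∑ d : ι, (if 1 ≤ g a + g b + g c + g d then (1 : ℝ) else 0)
      = N * ∑ D ∈ L, w D / τ * E1 (τ / N) (row g D)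
        (fun d => if 1 ≤ g a + g b + g c + d then (1 : ℝ) else 0) := by
    intro a b c
    exact key (fun d => if 1 ≤ g a + g b + g c + d then (1 : ℝ) else 0)
  have e2 : ∀ a b : ι, ∑ c : ι, ∑ d : ι, (if 1 ≤ g a + g b + g c + g d then (1 : ℝ) else 0)
      = N * ∑ C ∈ L, w C / τ * (N * ∑ D ∈ L, w D / τ * E1 (τ / N) (row g C) (fun c =>
          E1 (τ / N) (row g D) (fun d => if 1 ≤ g a + g b + c + d then (1 : ℝ) else 0))) := by
    intro a b
    rw [Finset.sum_congr rfl fun c _ => e1 a b c]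
    rw [key (fun c => N * ∑ D ∈ L, w D / τ * E1 (τ / N) (row g D)
        (fun d => if 1 ≤ g a + g b + c + d then (1 : ℝ) else 0))]
    congr 1
    refine Finset.sum_congr rfl fun C _ => ?_
    rw [hlin]
  have e3 : ∀ a : ι, ∑ b : ι, ∑ c : ι, ∑ d : ι,
        (if 1 ≤ g a + g b + g c + g d then (1 : ℝ) else 0)
      = N * ∑ B ∈ L, w B / τ * (N * ∑ C ∈ L, w C / τ * (N * ∑ D ∈ L, w D / τ *
        E1 (τ / N) (row g B) (fun b => E1 (τ / N) (row g C) (fun c =>
          E1 (τ / N) (row g D) (fun d => if 1 ≤ g a + b + c + d then (1 : ℝ) else 0))))) := by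
    intro a
    rw [Finset.sum_congr rfl fun b _ => e2 a b]
    rw [key (fun b => N * ∑ C ∈ L, w C / τ * (N * ∑ D ∈ L, w D / τ * E1 (τ / N) (row g C)
        (fun c => E1 (τ / N) (row g D) (fun d => if 1 ≤ g a + b + c + d then (1 : ℝ) else 0))))]
    congr 1
    refine Finset.sum_congr rfl fun B _ => ?_
    rw [hlin]
    congr 2
    refine Finset.sum_congr rfl fun C _ => ?_
    rw [hlin]
  have e4 : ∑ a : ι, ∑ b : ι, ∑ c : ι, ∑ d : ι,
        (if 1 ≤ g a + g b + g c + g d then (1 : ℝ) else 0)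
      = N * ∑ A ∈ L, w A / τ * (N * ∑ B ∈ L, w B / τ * (N * ∑ C ∈ L, w C / τ *
        (N * ∑ D ∈ L, w D / τ * E1 (τ / N) (row g A) (fun a => E1 (τ / N) (row g B) (fun b =>
          E1 (τ / N) (row g C) (fun c =>
          E1 (τ / N) (row g D) (fun d => if 1 ≤ a + b + c + d then (1 : ℝ) else 0))))))) := by
    rw [Finset.sum_congr rfl fun a _ => e3 a]
    rw [key (fun a => N * ∑ B ∈ L, w B / τ * (N * ∑ C ∈ L, w C / τ * (N * ∑ D ∈ L, w D / τ *
        E1 (τ / N) (row g B) (fun b => E1 (τ / N) (row g C) (fun c =>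
          E1 (τ / N) (row g D) (fun d => if 1 ≤ a + b + c + d then (1 : ℝ) else 0))))))]
    congr 1
    refine Finset.sum_congr rfl fun A _ => ?_
    rw [hlin]
    congr 2
    refine Finset.sum_congr rfl fun B _ => ?_
    rw [hlin]
    congr 2
    refine Finset.sum_congr rfl fun C _ => ?_
    rw [hlin]
  rw [e4]
  have hPhi : ∀ A B C D : Finset ι, Phi ![row g A, row g B, row g C, row g D] (τ / N)
      = E1 (τ / N) (row g A) (fun a => E1 (τ / N) (row g B) (fun b =>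
          E1 (τ / N) (row g C) (fun c =>
          E1 (τ / N) (row g D) (fun d => if 1 ≤ a + b + c + d then (1 : ℝ) else 0)))) := by
    intro A B C D
    rfl
  simp only [hPhi, Finset.mul_sum]
  refine Finset.sum_congr rfl fun A _ => Finset.sum_congr rfl fun B _ =>
    Finset.sum_congr rfl fun C _ => Finset.sum_congr rfl fun D _ => ?_
  ring

end K4
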